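import Mathlib
import Pool.Agent.R877.RN.Stm2

namespace R877.RN
open Matrix Filter Topology

namespace ZSK

variable {N : ℕ}

theorem adm_add (μ : Br N) (w w' : Fin N → ℝ) : adm μ (w + w') = adm μ w + adm μ w' := by
  ext k i
  simp [adm, add_mul, Finset.sum_add_distrib]

theorem adm_smul (μ : Br N) (r : ℝ) (w : Fin N → ℝ) : adm μ (r • w) = r • adm μ w := by
  ext k i
  simp [adm, mul_assoc, Finset.mul_sum]

/-- the Ricci form is nonnegative at `x` if `ad x` is skew -/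
theorem RF_skew {μ : Br N} (hA : Asym μ) (x : Fin N → ℝ) (h : adm μ x + (adm μ x)ᵀ = 0) :
    0 ≤ RF μ x := by
  have hk : ∀ k i, adm μ x i k = - adm μ x k i := by
    intro k i
    have := congrFun (congrFun h k) i
    simp only [Matrix.add_apply, Matrix.transpose_apply, Matrix.zero_apply] at this
    linarith
  have h12 : ∑ i, ∑ k, (∑ p, x p * μ p i k)^2 +
      ∑ i, ∑ k, (∑ p, x p * μ p i k) * (∑ p, x p * μ p k i) = 0 := by
    rw [← Finset.sum_add_distrib]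
    refine Finset.sum_eq_zero fun i _ => ?_
    rw [← Finset.sum_add_distrib]
    refine Finset.sum_eq_zero fun k _ => ?_
    have h1 : (∑ p, x p * μ p k i) = - ∑ p, x p * μ p i k := hk k i
    rw [h1]
    ring
  have h4 : ∀ a, ∑ p, ∑ q, x p * μ a p q * x q = 0 := by
    intro a
    have e1 : ∑ p, ∑ q, x p * μ a p q * x q = ∑ q, x q * adm μ x a q := by
      rw [Finset.sum_comm]
      refine Finset.sum_congr rfl fun q _ => ?_
      rw [hk q a]
      show _ = x q * - ∑ p, x p * μ p a q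
      rw [← Finset.sum_neg_distrib, Finset.mul_sum]
      refine Finset.sum_congr rfl fun p _ => ?_
      rw [hA a p q]
      ring
    have e2 : ∑ q, x q * adm μ x a q = - ∑ q, x q * adm μ x a q := by
      have e3 : ∑ q, x q * adm μ x a q = ∑ q, ∑ p, x q * (x p * μ p q a) := by
        refine Finset.sum_congr rfl fun q _ => ?_
        show x q * ∑ p, x p * μ p q a = _
        rw [Finset.mul_sum]
      conv_lhs => rw [e3, Finset.sum_comm]
      rw [e3, ← Finset.sum_neg_distrib]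
      refine Finset.sum_congr rfl fun q _ => ?_
      rw [← Finset.sum_neg_distrib]
      refine Finset.sum_congr rfl fun p _ => ?_
      rw [hA q p a]
      ring
    rw [e1]
    linarith
  have h3 : 0 ≤ ∑ i, ∑ j, (∑ k, x k * μ i j k)^2 :=
    Finset.sum_nonneg fun i _ => Finset.sum_nonneg fun j _ => sq_nonneg _
  have h5 : ∑ a, (∑ i, μ a i i) * ∑ p, ∑ q, x p * μ a p q * x q = 0 :=
    Finset.sum_eq_zero fun a _ => by rw [h4 a, mul_zero]
  unfold RF
  rw [h5]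
  linarith

theorem vmv (a b u : Fin N → ℝ) : vecMulVec a b *ᵥ u = (b ⬝ᵥ u) • a := by
  ext i
  simp only [mulVec, dotProduct, vecMulVec_apply, Pi.smul_apply, smul_eq_mul, Finset.sum_mul]
  refine Finset.sum_congr rfl fun j _ => ?_
  ring

theorem skew_dot {D : Mat N} (hD : Dᵀ = -D) (a b : Fin N → ℝ) :
    a ⬝ᵥ (D *ᵥ b) = - ((D *ᵥ a) ⬝ᵥ b) := by
  rw [dotProduct_mulVec, ← mulVec_transpose, hD, neg_mulVec, neg_dotProduct]

theorem skew_self {D : Mat N} (hD : Dᵀ = -D) (a : Fin N → ℝ) : a ⬝ᵥ (D *ᵥ a) = 0 := by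
  have h1 := skew_dot hD a a
  rw [dotProduct_comm (D *ᵥ a) a] at h1
  linarith

/-- `x ↦ [v xᵀ + x vᵀ, D]` -/
def Tm (D : Mat N) (v : Fin N → ℝ) : (Fin N → ℝ) →ₗ[ℝ] Mat N where
  toFun x := (vecMulVec v x + vecMulVec x v) * D - D * (vecMulVec v x + vecMulVec x v)
  map_add' a b := by
    rw [vecMulVec_add, add_vecMulVec]
    simp only [add_mul, mul_add]
    abel
  map_smul' r a := by
    rw [vecMulVec_smul, smul_vecMulVec, ← smul_add, smul_mul_assoc, mul_smul_comm, ← smul_sub]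
    rfl

theorem Tm_mulVec (D : Mat N) (v x u : Fin N → ℝ) : Tm D v x *ᵥ u =
    (x ⬝ᵥ (D *ᵥ u)) • v + (v ⬝ᵥ (D *ᵥ u)) • x - (x ⬝ᵥ u) • (D *ᵥ v) - (v ⬝ᵥ u) • (D *ᵥ x) := by
  show ((vecMulVec v x + vecMulVec x v) * D - D * (vecMulVec v x + vecMulVec x v)) *ᵥ u = _
  rw [sub_mulVec, ← mulVec_mulVec, ← mulVec_mulVec, add_mulVec, add_mulVec, vmv, vmv, vmv, vmv,
    mulVec_add, mulVec_smul, mulVec_smul]
  abel

theorem Tm_injective {D : Mat N} (hD : Dᵀ = -D) (v : Fin N → ℝ) (hv : D *ᵥ v ≠ 0) :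
    Function.Injective (Tm D v) := by
  rw [← LinearMap.ker_eq_bot, LinearMap.ker_eq_bot']
  intro x hx
  have key : ∀ u, (x ⬝ᵥ (D *ᵥ u)) • v + (v ⬝ᵥ (D *ᵥ u)) • x - (x ⬝ᵥ u) • (D *ᵥ v) -
      (v ⬝ᵥ u) • (D *ᵥ x) = 0 := by
    intro u
    rw [← Tm_mulVec, hx, zero_mulVec]
  set d := D *ᵥ v with hd
  have hdd : 0 < d ⬝ᵥ d := by
    have h1 : 0 ≤ d ⬝ᵥ d := Finset.sum_nonneg fun i _ => mul_self_nonneg (d i)
    rcases h1.lt_or_eq with h | h
    · exact h
    · exact absurd (dotProduct_self_eq_zero.1 h.symm) hv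
  have hvd : v ⬝ᵥ d = 0 := skew_self hD v
  have hvv : 0 < v ⬝ᵥ v := by
    have h1 : 0 ≤ v ⬝ᵥ v := Finset.sum_nonneg fun i _ => mul_self_nonneg (v i)
    rcases h1.lt_or_eq with h | h
    · exact h
    · exfalso
      apply hv
      rw [hd, dotProduct_self_eq_zero.1 h.symm, mulVec_zero]
  have h1 := key d
  have hvDd : v ⬝ᵥ (D *ᵥ d) = -(d ⬝ᵥ d) := skew_dot hD v d
  rw [hvd, hvDd, zero_smul, sub_zero] at h1
  have h2 : x ⬝ᵥ d = 0 := by
    have h3 := congrArg (fun y => d ⬝ᵥ y) h1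
    simp only [dotProduct_sub, dotProduct_add, dotProduct_smul, dotProduct_zero,
      smul_eq_mul] at h3
    rw [dotProduct_comm d v, hvd, dotProduct_comm d x] at h3
    have h4 : (d ⬝ᵥ d) * (x ⬝ᵥ d) = 0 := by linarith
    rcases mul_eq_zero.1 h4 with h | h
    · exact absurd h hdd.ne'
    · exact h
  rw [h2, zero_smul, sub_zero] at h1
  obtain ⟨c, hc⟩ : ∃ c : ℝ, x = c • v := by
    refine ⟨(x ⬝ᵥ (D *ᵥ d)) / (d ⬝ᵥ d), ?_⟩
    have h5 : (d ⬝ᵥ d) • x = (x ⬝ᵥ (D *ᵥ d)) • v := by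
      rw [neg_smul] at h1
      exact (sub_eq_zero.1 (by rw [sub_eq_add_neg]; exact h1)).symm
    rw [div_eq_inv_mul, mul_smul, ← h5, smul_smul, inv_mul_cancel₀ hdd.ne', one_smul]
  have h6 := key v
  rw [← hd, h2, hvd, zero_smul, zero_smul, zero_add, zero_sub, hc, mulVec_smul, ← hd,
    smul_dotProduct, smul_eq_mul, smul_smul, ← neg_smul, ← sub_smul] at h6
  rcases smul_eq_zero.1 h6 with h | h
  · have h7 : c * (v ⬝ᵥ v) = 0 := by linarith
    rcases mul_eq_zero.1 h7 with h8 | h8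
    · rw [hc, h8, zero_smul]
    · exact absurd h8 hvv.ne'
  · exact absurd h hv

/-- `w ↦ ad w + (ad w)ᵀ` -/
def Lm (μ : Br N) : (Fin N → ℝ) →ₗ[ℝ] Mat N where
  toFun w := adm μ w + (adm μ w)ᵀ
  map_add' a b := by rw [adm_add, transpose_add]; abel
  map_smul' r a := by rw [adm_smul, transpose_smul, ← smul_add]; rfl

theorem exists_sigma (μ : Br N) {D : Mat N} (hD : Dᵀ = -D) (hD0 : D ≠ 0) (k : Fin N → ℝ)
    (hk : k ≠ 0) (hDk : D *ᵥ k = 0) :
    ∃ σ : Mat N, σᵀ = σ ∧ σ * D - D * σ ∉ LinearMap.range (Lm μ) := by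
  by_contra hcon
  push Not at hcon
  -- the vector `r`
  obtain ⟨r0, hr0⟩ : ∃ r0, D *ᵥ r0 ≠ 0 := by
    by_contra hc
    push Not at hc
    apply hD0
    ext i j
    have := congrFun (hc (Pi.single j 1)) i
    rw [mulVec_single_one] at this
    simpa using this
  have hkk : 0 < k ⬝ᵥ k := by
    have h1 : 0 ≤ k ⬝ᵥ k := Finset.sum_nonneg fun i _ => mul_self_nonneg (k i)
    rcases h1.lt_or_eq with h | h
    · exact h
    · exact absurd (dotProduct_self_eq_zero.1 h.symm) hk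
  set r := r0 - ((r0 ⬝ᵥ k) / (k ⬝ᵥ k)) • k with hr
  have hDr : D *ᵥ r = D *ᵥ r0 := by
    rw [hr, mulVec_sub, mulVec_smul, hDk, smul_zero, sub_zero]
  have hrk : r ⬝ᵥ k = 0 := by
    rw [hr, sub_dotProduct, smul_dotProduct, smul_eq_mul, div_mul_cancel₀ _ hkk.ne', sub_self]
  set z := r + k with hz
  set v := r - ((r ⬝ᵥ r) / (k ⬝ᵥ k)) • k with hv
  have hDz : D *ᵥ z = D *ᵥ r := by rw [hz, mulVec_add, hDk, add_zero]
  have hDv : D *ᵥ v = D *ᵥ r := by rw [hv, mulVec_sub, mulVec_smul, hDk, smul_zero, sub_zero]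
  have hDr0 : D *ᵥ r ≠ 0 := by rw [hDr]; exact hr0
  have hvz : v ⬝ᵥ z = 0 := by
    rw [hv, hz, sub_dotProduct, smul_dotProduct, dotProduct_add, dotProduct_add, hrk,
      dotProduct_comm k r, hrk, smul_eq_mul, zero_add, add_zero, div_mul_cancel₀ _ hkk.ne',
      sub_self]
  have hkD : k ⬝ᵥ (D *ᵥ r) = 0 := by
    rw [skew_dot hD, hDk, zero_dotProduct, neg_zero]
  have hvDz : v ⬝ᵥ (D *ᵥ z) = 0 := by
    rw [hDz, hv, sub_dotProduct, smul_dotProduct, hkD, skew_self hD, smul_zero, sub_zero]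
  have hinj := Tm_injective hD v (by rw [hDv]; exact hDr0)
  have hle : LinearMap.range (Tm D v) ≤ LinearMap.range (Lm μ) := by
    rintro _ ⟨x, rfl⟩
    apply hcon
    rw [transpose_add, transpose_vecMulVec, transpose_vecMulVec, add_comm]
  have hfr : Module.finrank ℝ (LinearMap.range (Lm μ)) ≤
      Module.finrank ℝ (LinearMap.range (Tm D v)) := by
    rw [LinearMap.finrank_range_of_inj hinj]
    exact LinearMap.finrank_range_le _
  have heq := Submodule.eq_of_le_of_finrank_le hle hfr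
  -- the element `[y yᵀ, D]`
  set y := z + D *ᵥ z with hy
  have hmem : vecMulVec y y * D - D * vecMulVec y y ∈ LinearMap.range (Lm μ) :=
    hcon _ (by rw [transpose_vecMulVec])
  rw [← heq] at hmem
  obtain ⟨x, hx⟩ := hmem
  have h1 : z ⬝ᵥ (Tm D v x *ᵥ z) = 0 := by
    rw [Tm_mulVec, dotProduct_sub, dotProduct_sub, dotProduct_add, dotProduct_smul,
      dotProduct_smul, dotProduct_smul, dotProduct_smul, dotProduct_comm z v, hvz, hvDz,
      skew_dot hD z v, dotProduct_comm (D *ᵥ z) v, hvDz]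
    simp
  rw [hx, sub_mulVec, ← mulVec_mulVec, ← mulVec_mulVec, vmv, vmv, mulVec_smul, dotProduct_sub,
    dotProduct_smul, dotProduct_smul, skew_dot hD z y, smul_eq_mul, smul_eq_mul] at h1
  have hzz : z ⬝ᵥ (D *ᵥ z) = 0 := skew_self hD z
  have h2 : y ⬝ᵥ (D *ᵥ z) = (D *ᵥ z) ⬝ᵥ (D *ᵥ z) := by rw [hy, add_dotProduct, hzz, zero_add]
  have h3 : y ⬝ᵥ z = z ⬝ᵥ z := by
    rw [hy, add_dotProduct, dotProduct_comm (D *ᵥ z) z, hzz, add_zero]
  rw [dotProduct_comm z y, dotProduct_comm (D *ᵥ z) y, h2, h3] at h1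
  have h4 : (D *ᵥ z) ⬝ᵥ (D *ᵥ z) ≠ 0 := by
    intro hc
    exact hDr0 (by rw [← hDz]; exact dotProduct_self_eq_zero.1 hc)
  have h5 : z ⬝ᵥ z ≠ 0 := by
    intro hc
    apply hDr0
    rw [← hDz, dotProduct_self_eq_zero.1 hc, mulVec_zero]
  have h6 : ((D *ᵥ z) ⬝ᵥ (D *ᵥ z)) * (z ⬝ᵥ z) = 0 := by linarith
  rcases mul_eq_zero.1 h6 with h | h
  · exact h4 h
  · exact h5 h

/-- `(w,r) ↦ P ad w + (ad w)ᵀ P + r Q` -/
def Lam (μ : Br N) (P Q : Mat N) : ((Fin N → ℝ) × ℝ) →ₗ[ℝ] Mat N where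
  toFun e := P * adm μ e.1 + (adm μ e.1)ᵀ * P + e.2 • Q
  map_add' a b := by
    simp only [Prod.fst_add, Prod.snd_add, adm_add, transpose_add, mul_add, add_mul, add_smul]
    abel
  map_smul' r a := by
    simp only [Prod.smul_fst, Prod.smul_snd, adm_smul, transpose_smul, smul_eq_mul,
      RingHom.id_apply, smul_add, mul_smul_comm, smul_mul_assoc, mul_smul]

end ZSK

attribute [local instance] Matrix.normedAddCommGroup Matrix.normedSpace

open ZSK in
theorem p_SKEW : P_SKEW := by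
  intro N μ D k hA hneg hD hD0 hk hDk
  obtain ⟨σ, hσ, hσL⟩ := exists_sigma μ hD hD0 k hk hDk
  refine ⟨σ, hσ, ?_⟩
  let A0 : ((Fin N → ℝ) × ℝ) →L[ℝ] Mat N :=
    LinearMap.toContinuousLinearMap (Lam μ 1 ((2 : ℝ) • (σ * D - D * σ)))
  let A1 : ((Fin N → ℝ) × ℝ) →L[ℝ] Mat N :=
    LinearMap.toContinuousLinearMap (Lam μ ((2 : ℝ) • σ) (σ * σ * D - D * (σ * σ)))
  let A2 : ((Fin N → ℝ) × ℝ) →L[ℝ] Mat N :=
    LinearMap.toContinuousLinearMap (Lam μ (σ * σ) 0)
  have hA0 : Function.Injective A0 := by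
    have h0 : Function.Injective (Lam μ 1 ((2 : ℝ) • (σ * D - D * σ))) := by
      rw [← LinearMap.ker_eq_bot, LinearMap.ker_eq_bot']
      rintro ⟨w, r⟩ h
      have h1 : 1 * adm μ w + (adm μ w)ᵀ * 1 + r • ((2 : ℝ) • (σ * D - D * σ)) = 0 := h
      rw [one_mul, mul_one] at h1
      have hr : r = 0 := by
        by_contra hr
        apply hσL
        refine ⟨(-(r * 2)⁻¹) • w, ?_⟩
        rw [map_smul]
        show (-(r * 2)⁻¹) • (adm μ w + (adm μ w)ᵀ) = _
        have h2 : adm μ w + (adm μ w)ᵀ = -((r * 2) • (σ * D - D * σ)) := by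
          rw [mul_smul]
          exact eq_neg_of_add_eq_zero_left h1
        have h3 : r * 2 ≠ 0 := by positivity
        rw [h2, smul_neg, neg_smul, neg_neg, smul_smul, inv_mul_cancel₀ h3, one_smul]
      rw [hr, zero_smul, add_zero] at h1
      have hw : w = 0 := by
        by_contra hw
        have := RF_skew hA w h1
        have := hneg w hw
        linarith
      rw [hw, hr]
      rfl
    exact h0
  let Lc : ℝ → (((Fin N → ℝ) × ℝ) →L[ℝ] Mat N) := fun ε => A0 + ε • A1 + ε ^ 2 • A2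
  have hLc : Continuous Lc := by
    show Continuous fun ε : ℝ => A0 + ε • A1 + ε ^ 2 • A2
    fun_prop
  have hev1 : ∀ᶠ ε : ℝ in 𝓝 0, Function.Injective (Lc ε) := by
    have hopen := (ContinuousLinearMap.isOpen_injective (𝕜 := ℝ)
      (E := (Fin N → ℝ) × ℝ) (F := Mat N)).preimage hLc
    apply hopen.mem_nhds
    show Function.Injective (A0 + (0 : ℝ) • A1 + (0 : ℝ) ^ 2 • A2)
    simpa using hA0
  have hev2 : ∀ᶠ ε : ℝ in 𝓝 0, (1 + ε • σ).det ≠ 0 := by
    have hc : Continuous fun ε : ℝ => (1 + ε • σ).det := by fun_prop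
    have : (fun ε : ℝ => (1 + ε • σ).det) 0 ≠ 0 := by simp
    exact hc.continuousAt.eventually_ne this
  filter_upwards [hev1.filter_mono nhdsWithin_le_nhds, hev2.filter_mono nhdsWithin_le_nhds,
    self_mem_nhdsWithin] with ε h1 h2 h3
  intro w hw
  have hε : (0 : ℝ) < ε := h3
  set c : Mat N := 1 + ε • σ with hc
  have hct : cᵀ = c := by rw [hc, transpose_add, transpose_one, transpose_smul, hσ]
  have hcu : IsUnit c.det := isUnit_iff_ne_zero.2 h2
  have hc1 : c * c⁻¹ = 1 := mul_nonsing_inv c hcu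
  have hc2 : c⁻¹ * c = 1 := nonsing_inv_mul c hcu
  set A := D + adm μ w with hAdef
  have h4 : c * A * c⁻¹ + c⁻¹ * Aᵀ * c = 0 := by
    have h5 : (1 / 2 : ℝ) • (c * A * c⁻¹ + (c * A * c⁻¹)ᵀ) = 0 := hw
    rw [smul_eq_zero] at h5
    rcases h5 with h5 | h5
    · norm_num at h5
    · rw [transpose_mul, transpose_mul, transpose_nonsing_inv, hct, ← mul_assoc] at h5
      exact h5
  have h6 : c * c * A + Aᵀ * (c * c) = 0 := by
    have h7 : c * (c * A * c⁻¹ + c⁻¹ * Aᵀ * c) * c = c * c * A + Aᵀ * (c * c) := by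
      calc c * (c * A * c⁻¹ + c⁻¹ * Aᵀ * c) * c
          = c * c * A * (c⁻¹ * c) + (c * c⁻¹) * Aᵀ * (c * c) := by noncomm_ring
        _ = _ := by rw [hc1, hc2, mul_one, one_mul]
    rw [← h7, h4, mul_zero, zero_mul]
  have h8 : Lc ε (w, ε) = c * c * A + Aᵀ * (c * c) := by
    show (1 * adm μ w + (adm μ w)ᵀ * 1 + ε • ((2 : ℝ) • (σ * D - D * σ))) +
      ε • (((2 : ℝ) • σ) * adm μ w + (adm μ w)ᵀ * ((2 : ℝ) • σ) +
        ε • (σ * σ * D - D * (σ * σ))) +
      ε ^ 2 • ((σ * σ) * adm μ w + (adm μ w)ᵀ * (σ * σ) + ε • (0 : Mat N)) = _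
    rw [hAdef, transpose_add, hD, hc]
    simp only [add_mul, mul_add, one_mul, mul_one, smul_mul_assoc, mul_smul_comm, smul_add,
      smul_sub, smul_smul, neg_mul, mul_neg, smul_neg, mul_assoc, smul_zero, add_zero]
    module
  have h9 : Lc ε (w, ε) = Lc ε 0 := by rw [h8, h6, map_zero]
  have h10 := h1 h9
  have h11 : ε = 0 := congrArg Prod.snd h10
  linarith

end R877.RN
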